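import Mathlib
import Pool.Agent.U621.ZS.Ext2
import Pool.Agent.U613.PO.App

/-!
# Groups of exponent `2 m`, `m` odd: one centraliser of a finite `2`-subgroup decides

Let `m` be odd and let `G` be a group of exponent dividing `2 m` in which any three conjugate
involutions generate a soluble subgroup. The theorems say that the structure of `G` can be read off
from the centraliser of ONE finite `2`-subgroup `A` (these are elementary abelian), for example of one
involution. No assumption on the subgroups generated by elements of odd order is made, as it was in the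
starting result `ExponentTwiceOdd`; it is replaced by an assumption on `C_G(A)`.

Idea of the proof (an analogue of Glauberman's `Z*`-theorem for infinite groups, by a Frattini type
argument). Let `T` be the subgroup generated by the involutions and `t` an involution. By the assumption
on three involutions, `t t ^ g` has odd order for all `g` in `T`, and any two elements of the set `I` of
the elements of odd order inverted by `t` generate a group of odd order (each element `x` of `I` is the
product of `t` and the conjugate `t x` of `t`). Every element of `T` is in a unique way a product `c v`,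
`c` in `C_T(t)`, `v` in `I`, and the product of two elements of `I` has a `c` of odd order. So a
homomorphism of `C_T(t)` to a group without elements of odd order extends to `T`. All involutions of `T`
are conjugate to elements of `C_T(t)`. So the elements of odd order form a subgroup of `T` if they form
one of `C_T(t)`; an induction gives this for `C_T(A)`, `A` a finite `2`-subgroup. If `C_T(A)` is locally
soluble or if `A` contains all involutions of `C_T(A)` and `m ∈ 𝓛`, this holds: in the second case by
the theorem of Schur and Zassenhaus.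

For the last two parts one shows that a finitely generated infinite group of exponent `2 p ^ k`
generated by involutions, `p ^ k ∈ 𝓛`, has a normal subgroup `V` of finite index which has no proper
subgroup of finite index (generated by the involutions of the commutator subgroup), and a maximal
normal subgroup of `V` gives an infinite simple group.
-/

set_option autoImplicit false

namespace Pool.Agent.Results.MP_544bd1_al.OneCentralizerDecides

universe u v

/-- `n ∈ 𝓛`: every group satisfying `x ^ n = 1` is locally finite. -/
def InL (n : ℕ) : Prop := ∀ (G : Type u) [Group G], (∀ x : G, x ^ n = 1) →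
  ∀ S : Set G, S.Finite → Finite (Subgroup.closure S)

/-- The largest group of exponent dividing `n` which is generated by `k` elements with trivial
`r`-th power. -/
abbrev P (k n r : ℕ) : Type :=
  FreeGroup (Fin k) ⧸ Subgroup.normalClosure
    ((Set.range fun w : FreeGroup (Fin k) => w ^ n) ∪ Set.range fun i : Fin k => FreeGroup.of i ^ r)

/-- Any three conjugate elements with trivial square generate a soluble subgroup. -/
def ThreeSoluble (G : Type u) [Group G] : Prop :=
  ∀ t g h : G, t ^ 2 = 1 → Group.IsSolvable (Subgroup.closure {t, g⁻¹ * t * g, h⁻¹ * t * h})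

/-- Any three conjugate elements with trivial square generate a finite subgroup. -/
def ThreeFinite (G : Type u) [Group G] : Prop :=
  ∀ t g h : G, t ^ 2 = 1 → Finite (Subgroup.closure {t, g⁻¹ * t * g, h⁻¹ * t * h})

/-- `A` is a finite subgroup in which all squares are trivial. (In a group of exponent `2 m`, `m` odd,
these are the finite `2`-subgroups; the trivial subgroup is allowed.) -/
def FiniteTwo {G : Type u} [Group G] (A : Subgroup G) : Prop := Finite A ∧ ∀ a ∈ A, a ^ 2 = 1

/-- The subgroup `H` is locally finite. -/
def LocallyFinite {G : Type u} [Group G] (H : Subgroup G) : Prop :=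
  ∀ S : Set G, S.Finite → S ⊆ H → Finite (Subgroup.closure S)

/-- The elements of `H` with trivial `m`-th power form a subgroup. -/
def OddProducts {G : Type u} [Group G] (m : ℕ) (H : Subgroup G) : Prop :=
  ∀ x ∈ H, ∀ y ∈ H, x ^ m = 1 → y ^ m = 1 → (x * y) ^ m = 1

/-- `S` is an infinite finitely generated simple group of exponent dividing `2 m` with an involution
such that the product of any two conjugate involutions has odd order (its `m`-th power is trivial), and
for every finite `2`-subgroup `A`: the centraliser of `A` is generated by its elements of odd order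
(elements with trivial `m`-th power), it is not locally finite, and it contains an involution which is
not in `A`. -/
def Monster (m : ℕ) (S : Type u) [Group S] : Prop :=
  IsSimpleGroup S ∧ Group.FG S ∧ Infinite S ∧ (∀ x : S, x ^ (2 * m) = 1) ∧
    (∃ t : S, t ≠ 1 ∧ t ^ 2 = 1) ∧ (∀ t g : S, t ^ 2 = 1 → (t * (g⁻¹ * t * g)) ^ m = 1) ∧
    ∀ A : Subgroup S, FiniteTwo A →
      Subgroup.closure {x : S | x ∈ Subgroup.centralizer (A : Set S) ∧ x ^ m = 1} =
        Subgroup.centralizer (A : Set S) ∧
      ¬ LocallyFinite (Subgroup.centralizer (A : Set S)) ∧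
      ∃ x ∈ Subgroup.centralizer (A : Set S), x ∉ A ∧ x ^ 2 = 1

open Pool.Agent.U621.ZS in
theorem mem_c {G : Type u} [Group G] {A : Subgroup G} {x : G} :
    x ∈ Subgroup.centralizer (A : Set G) ↔ ∀ a ∈ A, x * a = a * x := by
  rw [Subgroup.mem_centralizer_iff]
  exact ⟨fun h a ha => (h a ha).symm, fun h a ha => (h a ha).symm⟩

theorem three_of_p {n : ℕ} (h : Finite (P 3 n 2)) (G : Type u) [Group G]
    (hG : ∀ x : G, x ^ n = 1) : ThreeFinite G := by
  intro t g k ht
  obtain ⟨f, hf⟩ := ExponentTwiceOdd.p_onto (k := 3) (r := 2) hG ![t, g⁻¹ * t * g, k⁻¹ * t * k] (by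
    intro i
    fin_cases i
    · exact ht
    · exact Pool.Agent.W629.conj_pow_one' ht
    · exact Pool.Agent.W629.conj_pow_one' ht)
  rw [ExponentTwiceOdd.range_three] at hf
  rw [← hf]
  exact Finite.of_surjective f.rangeRestrict f.rangeRestrict_surjective

open Pool.Agent.U621.ZS in
theorem main5 {p k : ℕ} (hp : p.Prime) (hp2 : p ≠ 2) : InL.{u} (2 * p ^ k) ↔
    InL.{u} (p ^ k) ∧ Finite (P 3 (2 * p ^ k) 2) ∧
      ∀ (S : Type u) [Group S], ¬ Monster (p ^ k) S := by
  have hm : Odd (p ^ k) := (hp.odd_of_ne_two hp2).pow
  constructor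
  · intro h
    refine ⟨ExponentTwiceOdd.inL_of_dvd (dvd_mul_left _ _) h, ExponentTwiceOdd.p_finite h, ?_⟩
    rintro S _ ⟨-, hfg, hinf, hS, -⟩
    have := fin_of_fg h S hfg hS
    exact hinf.not_finite this
  · rintro ⟨hL, hP, hM⟩
    by_contra hcon
    obtain ⟨S, _, s1, s2, s3, s4, t, ht, ht2⟩ := crit hp hp2 hL hcon
    have h3 := three_of_p hP S s4
    refine hM S ⟨s1, s2, s3, s4, ⟨t, ht, ht2⟩,
      fun t' g ht' => conj_rel hm s4 (three_of_fin hp s4 h3) (simple_gen ht ht2) g t' ht',
      fun A hA => ⟨?_, ?_, ?_⟩⟩
    · have := hA.1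
      exact simple_cent s3 hm s4 (three_of_fin hp s4 h3) ht ht2 A hA.2
    · intro hlf
      have := hA.1
      obtain ⟨F, hF⟩ := Group.fg_def.1 s2
      have h5 := lf_pp hp hp2 hL s4 h3 A hA.2 hlf (F : Set S) F.finite_toSet
      rw [hF] at h5
      exact s3.not_finite (Finite.of_equiv _ (Subgroup.topEquiv (G := S)).toEquiv)
    · have := hA.1
      obtain ⟨x, h5, h6, h7⟩ := simple_larger s3 hm hL s4 (three_of_fin hp s4 h3) ht ht2 A hA.2
      exact ⟨x, mem_c.2 h7, h5, h6⟩

/-- (1) Let `m` be odd and let `T` be a group of exponent dividing `2 m` which is generated by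
involutions, such that any three conjugate involutions generate a soluble subgroup, and `A` a finite
`2`-subgroup. The elements of odd order form a subgroup of `T` if and only if they form one of `C_T(A)`,
and every homomorphism of `C_T(A)` to a group without nontrivial elements of odd order extends uniquely
to `T`.
(2) Let `m ∈ 𝓛` be odd and let `G` be a group of exponent dividing `2 m` such that any three
conjugate involutions generate a soluble subgroup. Let `A` be a finite `2`-subgroup such that any two
elements of odd order of `C_G(A)` generate a soluble subgroup, or such that `A` contains all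
involutions of `C_G(A)` (for instance a finite maximal `2`-subgroup). Then `G` is locally finite.
(3) Let `p` be an odd prime, `p ^ k ∈ 𝓛`, and let `G` be a group of exponent dividing `2 p ^ k` in
which any three conjugate involutions generate a finite subgroup. Then `G` is locally finite if and
only if `C_G(A)` is locally finite for some finite `2`-subgroup `A`.
(4) Let `m` be odd and let `S` be an infinite simple group of exponent dividing `2 m` with an involution
in which any three conjugate involutions generate a soluble subgroup. Then the centraliser of every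
finite `2`-subgroup `A` is generated by its elements of odd order, and if `m ∈ 𝓛` it contains an
involution not in `A`.
(5) Let `p` be an odd prime. Then `2 p ^ k ∈ 𝓛` if and only if `p ^ k ∈ 𝓛`, the largest group of
exponent dividing `2 p ^ k` generated by three involutions is finite, and there is no group `S` with the
properties `Monster (p ^ k)`.
(6) `10 ∈ 𝓛` if and only if the largest group of exponent `10` generated by three involutions is
finite and there is no group `S` with the properties `Monster 5`. -/
theorem result :
    (∀ m : ℕ, Odd m → ∀ (T : Type u) [Group T], (∀ x : T, x ^ (2 * m) = 1) →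
      Subgroup.closure {x : T | x ^ 2 = 1} = ⊤ → ThreeSoluble T → ∀ A : Subgroup T, FiniteTwo A →
      (OddProducts m (⊤ : Subgroup T) ↔ OddProducts m (Subgroup.centralizer (A : Set T))) ∧
      ∀ (Q : Type v) [Group Q], (∀ (q : Q) (j : ℕ), Odd j → q ^ j = 1 → q = 1) →
        ∀ χ : Subgroup.centralizer (A : Set T) →* Q,
          ∃! ψ : T →* Q, ∀ c : Subgroup.centralizer (A : Set T), ψ c = χ c) ∧
    (∀ m : ℕ, Odd m → InL.{u} m → ∀ (G : Type u) [Group G], (∀ x : G, x ^ (2 * m) = 1) →
      ThreeSoluble G → ∀ A : Subgroup G, FiniteTwo A →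
      ((∀ x ∈ Subgroup.centralizer (A : Set G), ∀ y ∈ Subgroup.centralizer (A : Set G),
          x ^ m = 1 → y ^ m = 1 → Group.IsSolvable (Subgroup.closure {x, y})) ∨
        ∀ x ∈ Subgroup.centralizer (A : Set G), x ^ 2 = 1 → x ∈ A) →
      ∀ S : Set G, S.Finite → Finite (Subgroup.closure S)) ∧
    (∀ p k : ℕ, p.Prime → p ≠ 2 → InL.{u} (p ^ k) → ∀ (G : Type u) [Group G],
      (∀ x : G, x ^ (2 * p ^ k) = 1) → ThreeFinite G →
      ((∀ S : Set G, S.Finite → Finite (Subgroup.closure S)) ↔
        ∃ A : Subgroup G, FiniteTwo A ∧ LocallyFinite (Subgroup.centralizer (A : Set G)))) ∧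
    (∀ m : ℕ, Odd m → ∀ (S : Type u) [Group S], IsSimpleGroup S → Infinite S →
      (∀ x : S, x ^ (2 * m) = 1) → (∃ t : S, t ≠ 1 ∧ t ^ 2 = 1) → ThreeSoluble S →
      ∀ A : Subgroup S, FiniteTwo A →
      Subgroup.closure {x : S | x ∈ Subgroup.centralizer (A : Set S) ∧ x ^ m = 1} =
        Subgroup.centralizer (A : Set S) ∧
      (InL.{u} m → ∃ x ∈ Subgroup.centralizer (A : Set S), x ∉ A ∧ x ^ 2 = 1)) ∧
    (∀ p k : ℕ, p.Prime → p ≠ 2 → (InL.{u} (2 * p ^ k) ↔
      InL.{u} (p ^ k) ∧ Finite (P 3 (2 * p ^ k) 2) ∧
        ∀ (S : Type u) [Group S], ¬ Monster (p ^ k) S)) ∧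
    (InL.{u} 10 ↔ Finite (P 3 10 2) ∧ ∀ (S : Type u) [Group S], ¬ Monster 5 S) := by
  refine ⟨?_, ?_, ?_, ?_, fun p k hp hp2 => main5 hp hp2, ?_⟩
  · intro m hm T _ hT hgen h3 A hA
    have := hA.1
    have hI : Pool.Agent.U621.ZS.Isol T := Pool.Agent.U621.ZS.isol hm hT h3 hgen
    refine ⟨⟨fun h x _ y _ hxm hym => h x trivial y trivial hxm hym, fun h x _ y _ hxm hym => ?_⟩,
      fun Q _ hQ χ => ?_⟩
    · exact Pool.Agent.U621.ZS.prod_of_finite hm T hT hI A hA.2
        (fun x y hx hy => h x (mem_c.2 hx) y (mem_c.2 hy)) x y hxm hym
    · exact Pool.Agent.U621.ZS.extend_finite (fun q hq => by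
        obtain ⟨j, hj, hq⟩ := hq
        exact hQ q j hj hq) T hI A hA.2 χ
  · intro m hm hL G _ hG h3 A hA hC S hS
    have := hA.1
    refine Pool.Agent.U621.ZS.lf_group hm hL hG h3 A hA.2 ?_ S hS
    rcases hC with hC | hC
    · exact Or.inl fun x y hx hy => hC x (mem_c.2 hx) y (mem_c.2 hy)
    · exact Or.inr fun x hx => hC x (mem_c.2 hx)
  · intro p k hp hp2 hL G _ hG h3
    constructor
    · intro h
      exact ⟨⊥, ⟨inferInstance, fun a ha => by rw [Subgroup.mem_bot.1 ha, one_pow]⟩,
        fun S hS _ => h S hS⟩
    · rintro ⟨A, hA, hlf⟩ S hS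
      have := hA.1
      exact Pool.Agent.U621.ZS.lf_pp hp hp2 hL hG h3 A hA.2 hlf S hS
  · rintro m hm S _ s1 s2 hG ⟨t, ht, ht2⟩ h3 A hA
    have := hA.1
    refine ⟨Pool.Agent.U621.ZS.simple_cent s2 hm hG h3 ht ht2 A hA.2, fun hL => ?_⟩
    obtain ⟨x, h5, h6, h7⟩ := Pool.Agent.U621.ZS.simple_larger s2 hm hL hG h3 ht ht2 A hA.2
    exact ⟨x, mem_c.2 h7, h5, h6⟩
  · have h := main5.{u} (p := 5) (k := 1) Nat.prime_five (by norm_num)
    norm_num at h
    rw [h]
    constructor
    · exact fun h1 => h1.2
    · exact fun h1 => ⟨(Pool.Agent.U613.PO.small.{u} (n := 5) (Or.inl rfl)).1 h1.1, h1⟩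

end Pool.Agent.Results.MP_544bd1_al.OneCentralizerDecides
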