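import Mathlib
import Pool.Agent.U613.PO.App

/-!
# Generators of prime order decide local finiteness, for every exponent

Idea of the proof.  Let `C` be a finite group of exponent dividing `c`, generated by `x₁, …, x_k`, let
`Q` be a group of exponent dividing `m`, and label the edges `a → a x_i` of the Cayley graph of `C` by
elements of `Q`.  In the regular wreath product of `Q` by `C`, which has exponent dividing `c m`, the
elements `X_i = (a ↦ label of (a, i), x_i)` multiply like paths of the graph.  If `X_i` shall have
the same order as `x_i`, the product of the labels along every cycle `a, a x_i, a x_i², …` must be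
trivial.  A spanning tree grown by the positive word length contains no complete cycle of this kind;
so one labels the edges of the tree by `1`, chooses in every cycle one edge outside the tree whose
label is then determined, and labels the remaining edges by the generators of the free Burnside group
`Q = B_{ρ,m}`; their number is `ρ = 1 + |C| (k - 1 - ∑ 1 / ord x_i)`.  The evaluation at `1` maps the
base part of `⟨X_1, …, X_k⟩` onto `Q` (`Pool.Agent.U613.PO.Lab`, `Tree`).

For a divisor `r ≥ 2` of `n` the elements with trivial `r`-th power of a group `G` of exponent `n`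
generate a normal subgroup `T`, and `G / T` has exponent dividing `n / r`.  If the groups of exponent
`n` generated by finitely many elements of order dividing `r` are finite, then `T` is locally finite,
and the transfer for `C = (ℤ/r)^k` yields `n / r ∈ 𝓛`, so that `G` is locally finite.
-/

set_option autoImplicit false

namespace Pool.Agent.Results.MP_544bd1_al.PrimeOrderGenerators

open Pool.Agent.U613

universe u

/-- `n ∈ 𝓛`: every group satisfying `x ^ n = 1` is locally finite. -/
def InL (n : ℕ) : Prop := ∀ (G : Type u) [Group G], (∀ x : G, x ^ n = 1) →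
  ∀ S : Set G, S.Finite → Finite (Subgroup.closure S)

/-- The free Burnside group `B_{m,n}`: the free group of rank `m` modulo the normal closure of all
`n`-th powers. -/
abbrev B (m n : ℕ) : Type :=
  FreeGroup (Fin m) ⧸ Subgroup.normalClosure (Set.range fun w : FreeGroup (Fin m) => w ^ n)

/-- The largest group of exponent dividing `n` generated by elements `y_i`, `i < k`, with
`y_i ^ r_i = 1` (no condition on `y_i` if `r_i = 0`). -/
abbrev P (k n : ℕ) (r : Fin k → ℕ) : Type :=
  FreeGroup (Fin k) ⧸ Subgroup.normalClosure
    ((Set.range fun w : FreeGroup (Fin k) => w ^ n) ∪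
      Set.range fun i : Fin k => FreeGroup.of i ^ r i)

/-- (1) Let `r ≥ 2` be a divisor of `n`, for instance a prime divisor. Then `n ∈ 𝓛` if and only if for
all `k` the largest group of exponent dividing `n` generated by `k` elements with trivial `r`-th
power is finite, (2) and if and only if in every group of exponent dividing `n` the normal closure of
every element with trivial `r`-th power is locally finite.
(3) Let `C` be a finite group of exponent dividing `c`, generated by `x_i`, `i < k`, and let `r_i` be
`0` or the order of `x_i`. Put `ρ = 1 + |C| (k - 1 - ∑ 1 / r_i)`, the sum over the `i` with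
`r_i ≠ 0`. Then `|C| |B_{ρ,m}|` divides the order of `P k (c m) r` (where infinite orders count as
`0`); so `B_{ρ,m}` is finite if `P k (c m) r` is.
(4) If the largest group of exponent dividing `c m` generated by two elements whose orders divide
`a` and `b` is finite, where `a, b ≥ 1` divide `c`, then `B_{(a-1)(b-1),m}` is finite. If the largest
group of exponent dividing `2 m` generated by three involutions is finite, then `B_{5,m}` is finite. If
the quotient `P 2 (6 m) (2,3)` of the modular group `PSL₂(ℤ)` by its `6 m`-th powers is finite, then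
`B_{3,m}` is finite.
(5) Let `n` be `5`, `10`, `12`, `15` or `20`. Then `n ∈ 𝓛` if the largest group of exponent `2 n`
generated by three involutions, or that of exponent `6 n` generated by elements of orders `2` and
`3`, or one of the groups `P 2 (c n) (a,b)`, `a, b ∣ c`, `(a - 1) (b - 1) ≥ 3`, is finite.
(6) `10 ∈ 𝓛` if and only if the largest group of exponent `10` generated by three involutions and the
one generated by two elements of order `5` are finite. -/
theorem result :
    (∀ r n : ℕ, 2 ≤ r → r ∣ n → (InL.{u} n ↔ ∀ k : ℕ, Finite (P k n fun _ => r))) ∧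
    (∀ r n : ℕ, 2 ≤ r → r ∣ n → (InL.{u} n ↔
      ∀ (G : Type u) [Group G], (∀ x : G, x ^ n = 1) → ∀ x : G, x ^ r = 1 →
        ∀ S : Set G, S.Finite → S ⊆ Subgroup.normalClosure {x} → Finite (Subgroup.closure S))) ∧
    (∀ (C : Type) [Group C] [Finite C] (k : ℕ) (x : Fin k → C),
      Subgroup.closure (Set.range x) = ⊤ → ∀ r : Fin k → ℕ, (∀ i, r i = 0 ∨ r i = orderOf (x i)) →
      ∀ c m ρ : ℕ, (∀ a : C, a ^ c = 1) →
      ρ + Nat.card C + ∑ i, Nat.card C / r i = k * Nat.card C + 1 →
      Nat.card C * Nat.card (B ρ m) ∣ Nat.card (P k (c * m) r) ∧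
      (Finite (P k (c * m) r) → Finite (B ρ m))) ∧
    (∀ a b c m : ℕ, 1 ≤ a → 1 ≤ b → a ∣ c → b ∣ c → Finite (P 2 (c * m) ![a, b]) →
      Finite (B ((a - 1) * (b - 1)) m)) ∧
    (∀ m : ℕ, Finite (P 3 (2 * m) fun _ => 2) → Finite (B 5 m)) ∧
    (∀ m : ℕ, Finite (P 2 (6 * m) ![2, 3]) → Finite (B 3 m)) ∧
    (∀ n : ℕ, n = 5 ∨ n = 10 ∨ n = 12 ∨ n = 15 ∨ n = 20 →
      (Finite (P 3 (2 * n) fun _ => 2) → InL.{u} n) ∧
      (Finite (P 2 (6 * n) ![2, 3]) → InL.{u} n) ∧
      ∀ a b c : ℕ, a ∣ c → b ∣ c → 3 ≤ (a - 1) * (b - 1) → Finite (P 2 (c * n) ![a, b]) →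
        InL.{u} n) ∧
    (InL.{u} 10 ↔ Finite (P 3 10 fun _ => 2) ∧ Finite (P 2 10 fun _ => 5)) := by
  refine ⟨fun r n hr hrn => PO.inL_iff_p hr hrn, fun r n hr hrn => ?_,
    fun C _ _ k x hx r hr c m ρ hc hρ => ⟨PO.transfer x hx r hr hc hρ, fun h =>
      PO.transfer_finite x hx r hr hc hρ h⟩,
    fun a b c m ha hb hac hbc h => PO.fin_of_dvd (PO.two_gen ha hb hac hbc) h,
    fun m h => PO.fin_of_dvd (PO.three_inv m) h, fun m h => PO.fin_of_dvd (PO.modular m) h,
    fun n hn => PO.small hn, PO.ten⟩
  constructor
  · intro h G _ hG x _ S hS _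
    exact h G hG S hS
  · intro h
    refine (PO.inL_iff_nc hr hrn).2 fun G _ hG x hx => ?_
    intro S hS
    have h1 := h G hG x hx ((Subgroup.normalClosure {x}).subtype '' S) (hS.image _) (by
      rintro _ ⟨y, -, rfl⟩
      exact y.2)
    rw [← MonoidHom.map_closure] at h1
    exact Finite.of_equiv _ ((Subgroup.closure S).equivMapOfInjective
      (Subgroup.normalClosure {x}).subtype (Subgroup.subtype_injective _)).symm.toEquiv

end Pool.Agent.Results.MP_544bd1_al.PrimeOrderGenerators
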