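import Pool.Agent.U7.SW.Five
import Pool.Agent.U7.SW.Seven

/-!
# Sandwich words: local finiteness from slow growth of the derived length or the class

Let `w_0 = g_0` and `w_(k+1) = [[g_(k+1), w_k], w_k]`, a commutator of weight `2 ^ (k + 2) - 1` in
`k + 2` variables.

* A periodic group whose `(k+1)`-generator subgroups have derived length at most `k`, or are
  nilpotent of class at most `2 ^ (k + 1) - 2`, is locally finite.  (For each `d` there are infinite
  finitely generated periodic groups all of whose `d`-generator subgroups are finite, so something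
  has to be assumed on the finite subgroups.)
* All nontrivial groups of exponent `n` have nontrivial abelian normal subgroups if and only if one
  of the equations `w_k(x_0, ..., x_k) = 1` holds in the free Burnside group `B_{k+1,n}`; and then
  `n ∈ 𝓛`.
* This is so if for some `k` the derived length of `B_{k+1,n}` is at most `k`, or its class is at
  most `2 ^ (k + 1) - 2`, or the class of the normal closure of one generator is at most `2 ^ k - 1`.
* So if the finite `(k+1)`-generator groups of exponent `n` have this property for some `k`, then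
  `n ∈ 𝓛` if and only if `B_{k+1,n}` is finite.
* `5 ∈ 𝓛` if and only if `w_k(x_0, ..., x_k) = 1` in `B_{k+1,5}` for some `k`.
* Vaughan-Lee and Zelmanov proved that the finite `m`-generator groups of exponent `7` have class at
  most `51 m ^ 8`, which is less than `2 ^ m - 1` for `m = 52`. With this bound (a hypothesis here):
  `7 ∈ 𝓛` if and only if `B_{52,7}` is finite; `14`, `21`, `28`, `35` are in `𝓛` if and only if
  `B_{5,14}`, `B_{3,21}`, `B_{2,28}`, `B_{2,35}` are finite; and `7 ∈ 𝓛` if `B_{2,7c}` is finite for
  some `c ≥ 4`.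

Idea of the proof.  If `w_j` is a law of the group `G ≠ 1` and `w_(j-1)` is not, a value `z ≠ 1` of
`w_(j-1)` satisfies `[[h, z], z] = 1` for all `h`, so it commutes with its conjugates and its normal
closure is abelian.  Conversely, if no `w_k` is trivial in the free group of the variety, a maximal
normal subgroup which avoids all `w_k(x_0, x_1, ...)` gives a quotient without abelian normal
subgroups.  The word `w_k` lies in the `k`-th derived subgroup, in `γ_(2^(k+1)-1)`, and in `γ_(2^k)`
of the normal closure of `g_0`; so it vanishes for slowly growing derived length or class.  For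
`n = 5` the lemmas of the earlier result `ThreeGeneratorsFive` (`Pool.Agent.Y50.FE`) give abelian
normal subgroups in all nontrivial locally finite groups of exponent `5`.
For the
multiples of `7` the regular wreath product (the transfer theorem of `PrimeOrderGenerators`) shows
that `B_{ρ,m}`, `ρ = 1 + |C| (k - 1)`, is finite if `B_{k,cm}` is, for every `k`-generator group `C`
of exponent dividing `c`; the starting results `TwoGenerators` and `TwoGeneratorsMultiplesOfFive` are
used too.
-/

set_option autoImplicit false

namespace Pool.Agent.Results.MP_544bd1_al.SandwichWords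

open scoped commutatorElement

universe u

/-- Every finite subset generates a finite subgroup. -/
def LocallyFinite (G : Type u) [Group G] : Prop :=
  ∀ S : Set G, S.Finite → Finite (Subgroup.closure S)

/-- `n ∈ 𝓛`: every group satisfying `x ^ n = 1` is locally finite. -/
def InL (n : ℕ) : Prop := ∀ (G : Type u) [Group G], (∀ x : G, x ^ n = 1) → LocallyFinite G

/-- The free Burnside group `B_{m,n}`: the free group of rank `m` modulo the normal closure of all
`n`-th powers. -/
abbrev B (m n : ℕ) : Type :=
  FreeGroup (Fin m) ⧸ Subgroup.normalClosure (Set.range fun w : FreeGroup (Fin m) => w ^ n)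

/-- The generators `x_0, ..., x_(m-1)` of `B_{m,n}`. -/
def gen (m n : ℕ) (i : Fin m) : B m n := QuotientGroup.mk (FreeGroup.of i)

/-- The sequence `x_0, ..., x_(m-1), 1, 1, ...` in `B_{m,n}`. -/
def x (m n : ℕ) (i : ℕ) : B m n := if h : i < m then gen m n ⟨i, h⟩ else 1

/-- The words `w_0 = g_0`, `w_(k+1) = [[g_(k+1), w_k], w_k]`; `w_k` depends on `g_0, ..., g_k`. -/
def w {G : Type u} [Group G] (g : ℕ → G) : ℕ → G
  | 0 => g 0
  | k + 1 => ⁅⁅g (k + 1), w g k⁆, w g k⁆

/-- Every nontrivial group satisfying `x ^ n = 1` has a nontrivial abelian normal subgroup (so it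
has an ascending normal series with abelian factors). -/
def Hyperabelian (n : ℕ) : Prop := ∀ (G : Type u) [Group G], Nontrivial G → (∀ x : G, x ^ n = 1) →
  ∃ A : Subgroup G, A.Normal ∧ A ≠ ⊥ ∧ ∀ a ∈ A, ∀ b ∈ A, a * b = b * a

/-- `F` is soluble of derived length at most `k`, or nilpotent of class at most `2 ^ (k + 1) - 2`, or
the normal closure of `a` in `F` is nilpotent of class at most `2 ^ k - 1`. (In Mathlib
`lowerCentralSeries c` is `γ_(c+1)`.) -/
def Small (k : ℕ) {F : Type u} [Group F] (a : F) : Prop :=
  derivedSeries F k = ⊥ ∨ (⊤ : Subgroup F).lowerCentralSeries (2 ^ (k + 1) - 2) = ⊥ ∨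
    (Subgroup.normalClosure {a}).lowerCentralSeries (2 ^ k - 1) = ⊥

/-- The bound of Vaughan-Lee and Zelmanov for the exponent `7` and `52` generators: the finite groups
of exponent `7` generated by `52` elements are nilpotent of class at most `51 * 52 ^ 8`. -/
def ClassBoundSeven : Prop := ∀ (F : Type) [Group F] [Finite F], (∀ y : F, y ^ 7 = 1) →
  ∀ g : Fin 52 → F, Subgroup.closure (Set.range g) = ⊤ →
    (⊤ : Subgroup F).lowerCentralSeries (51 * 52 ^ 8) = ⊥

theorem w_eq {G : Type u} [Group G] (g : ℕ → G) (k : ℕ) : w g k = Pool.Agent.U7.SW.sw g k := by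
  induction k with
  | zero => rfl
  | succ k ih => simp only [w, Pool.Agent.U7.SW.sw, ih]

/-- (1) A periodic group is locally finite if for some `k` all its `(k+1)`-generator subgroups
`⟨g_0, ..., g_k⟩` are `Small k`: soluble of derived length at most `k`, or nilpotent of class at
most `2 ^ (k + 1) - 2`, or with a normal closure of `g_0` of class at most `2 ^ k - 1`.
(2) All nontrivial groups of exponent `n` have nontrivial abelian normal subgroups if and only if
`w_k(x_0, ..., x_k) = 1` in `B_{k+1,n}` for some `k`. (3) If this holds and `n ≥ 1`, then `n ∈ 𝓛`.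
(4) It holds if `B_{k+1,n}` is `Small k` for some `k`. (5) If all finite groups of exponent `n` with
`k + 1` generators are `Small k`, then `n ∈ 𝓛` if and only if `B_{k+1,n}` is finite.
(6) `5 ∈ 𝓛` if and only if all nontrivial groups of exponent `5` have nontrivial abelian normal
subgroups, which is the condition in (2) for `n = 5`. (7) Suppose that the finite groups of exponent
`7` generated by `52` elements have class at most `51 * 52 ^ 8`. Then `7 ∈ 𝓛` if and only if
`B_{52,7}` is finite; `14 ∈ 𝓛` if and only if `B_{5,14}` is finite; `21 ∈ 𝓛` if and only if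
`B_{3,21}` is finite; `28 ∈ 𝓛` if and only if `B_{2,28}` is finite; `35 ∈ 𝓛` if and only if
`B_{2,35}` is finite; and `7 ∈ 𝓛` if `B_{2,7c}` is finite for some `c ≥ 4`. -/
theorem result :
    (∀ (G : Type u) [Group G], (∀ y : G, IsOfFinOrder y) → ∀ k : ℕ,
      (∀ g : Fin (k + 1) → G, Small k
        (⟨g 0, Subgroup.subset_closure ⟨0, rfl⟩⟩ : Subgroup.closure (Set.range g))) →
      LocallyFinite G) ∧
    (∀ n : ℕ, Hyperabelian.{u} n ↔ ∃ k, w (x (k + 1) n) k = 1) ∧
    (∀ n : ℕ, 1 ≤ n → Hyperabelian.{u} n → InL.{u} n) ∧
    (∀ n k : ℕ, Small k (gen (k + 1) n 0) → Hyperabelian.{u} n) ∧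
    (∀ n k : ℕ, 1 ≤ n →
      (∀ (F : Type) [Group F] [Finite F], (∀ y : F, y ^ n = 1) → ∀ g : Fin (k + 1) → F,
        Subgroup.closure (Set.range g) = ⊤ → Small k (g 0)) →
      (InL.{u} n ↔ Finite (B (k + 1) n))) ∧
    (InL.{u} 5 ↔ Hyperabelian.{u} 5) ∧
    (ClassBoundSeven →
      (InL.{u} 7 ↔ Finite (B 52 7)) ∧ (InL.{u} 14 ↔ Finite (B 5 14)) ∧
      (InL.{u} 21 ↔ Finite (B 3 21)) ∧ (InL.{u} 28 ↔ Finite (B 2 28)) ∧
      (InL.{u} 35 ↔ Finite (B 2 35)) ∧
      ∀ c : ℕ, 4 ≤ c → Finite (B 2 (c * 7)) → InL.{u} 7) := by
  refine ⟨fun G _ h k hk => Pool.Agent.U7.SW.lf_of_small h k hk, ?_, fun n hn h =>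
    Pool.Agent.U7.SW.lf_of_hyp hn h, fun n k h => Pool.Agent.U7.SW.hyp_of_small h, ?_,
    Pool.Agent.U7.SW.hyp_five, Pool.Agent.U7.SW.seven⟩
  · intro n
    constructor
    · intro h
      obtain ⟨k, hk⟩ := Pool.Agent.U7.SW.of_hyp h
      exact ⟨k, (w_eq _ k).trans hk⟩
    · rintro ⟨k, hk⟩
      exact Pool.Agent.U7.SW.hyp_of (Nat.lt_succ_self k) ((w_eq _ k).symm.trans hk)
  · intro n k hn h
    constructor
    · exact fun h1 => Pool.Agent.U7.SW.B_finite h1
    · intro h1
      refine Pool.Agent.U7.SW.lf_of_hyp hn (Pool.Agent.U7.SW.hyp_of_small (k := k) ?_)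
      exact h (B (k + 1) n) (Pool.Agent.U7.SW.B_pow (k + 1) n) (gen (k + 1) n)
        (Pool.Agent.U7.SW.closure_gen (k + 1) n)

end Pool.Agent.Results.MP_544bd1_al.SandwichWords
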