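import Mathlib
import Pool.Agent.U110.BN.PM

/-!
# Three generators decide local finiteness, without solubility

The result `ThreeGenerators` and its refinements reduce the question `n ∈ 𝓛` to the finiteness of
`B_{3,n}` and to prime powers, if the finite three-generator groups of exponent `n` are soluble.
Here this is proved without solubility; the only condition on the nonabelian simple sections `V` of
`B_{3,n}` are two properties which all finite nonabelian simple groups have (see `Good`).

Outline.  For a class `C` of finite groups defined by simple sections and a simple group `T` which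
is not in `C`, of order not less than those of the simple groups in `C`, it is shown that the theorem
for `C` implies the theorem for the class `C⁺` obtained by adding `T` (`Pool.Agent.U110.BN.lfc_step`).
Let `G` be a group with three-generator subgroups in `C⁺` without locally finite normal subgroups.

1. For each generating tuple `v` of `T` there are words `w_{v,t}`, `t ∈ T`, which take the value
`α(t)` at the tuples `α(v)`, `α ∈ Aut T`, and `1` at all other tuples of `T`.  In groups with the
laws of `T` they define homomorphisms `T → G`.  If `G` satisfies the two-variable laws of `T`, then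
subgroups `T` centralise the `C`-subgroups which they normalise, and (by words in three variables
and two inequivalent generating pairs) the normal closure of a subgroup `T` is locally finite, if
the three-generator subgroups of `G` are `C`-by-(laws of `T`).
2. Let `F` be a finite group in `C⁺`, and `A` its quotient by the largest normal `C`-subgroup.  The
centraliser of all components `T` of `A` is trivial; let `K(F)` be the subgroup of elements which
induce inner automorphisms on each of them.  The `C`-radical and `K(F)` are detected on the
subgroups `⟨g, y⟩`, `y ∈ F`, by the second property of `T` in `Good`.  Therefore the elements `g` of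
`G` with `g ∈ K(⟨g, y⟩)` for all `y ∈ G` (suitably interpreted) form a normal subgroup, which is
locally finite by 1, so trivial, and the same holds for the `C`-radical.
3. Let `m` be the exponent of `G`.  If it is odd, there are no sections `T`.  If it is even,
`x ^ (m / 2)` normalises the components `T` of the quotients `A` for all finite `F` containing `x`.
As `|Out T| < |T|`, the `C`-residual of the normal closure of `x ^ (m / 2)` in `⟨x, w⟩` lies in
`K(⟨x, w, v⟩)` for all `v`, so it is trivial; hence `x ^ (m / 2)` is in the `C`-radical and trivial,
a contradiction.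

The case without simple groups is the theorem on soluble groups (`Pool.Agent.H32BU`), or, for the
admissible exponents, the result `TwoGenerators`.
-/

set_option autoImplicit false

namespace Pool.Agent.Results.MP_544bd1_al.ThreeGeneratorsGeneral

open Pool.Agent.U110.BN (SecU main_all main_exp good_a5)

universe u

/-- `G` is locally finite: finite subsets generate finite subgroups. -/
def LocallyFinite (G : Type u) [Group G] : Prop := ∀ S : Set G, S.Finite →
  Finite (Subgroup.closure S)

/-- `n ∈ 𝓛`: every group satisfying `x ^ n = 1` is locally finite. -/
def InL (n : ℕ) : Prop := ∀ (G : Type u) [Group G], (∀ x : G, x ^ n = 1) → LocallyFinite G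

/-- The free Burnside group `B_{m,n}`: the free group of rank `m` modulo the normal closure of all
`n`-th powers. -/
abbrev B (m n : ℕ) : Type :=
  FreeGroup (Fin m) ⧸ Subgroup.normalClosure (Set.range fun w : FreeGroup (Fin m) => w ^ n)

/-- `n` is not divisible by `2 ^ m * (2 ^ m - 1) ^ 2` for any `m ≥ 2`, and there are at most two odd
primes whose square divides `n`. -/
def Admissible (n : ℕ) : Prop :=
  (∀ m : ℕ, 2 ≤ m → ¬ 2 ^ m * (2 ^ m - 1) ^ 2 ∣ n) ∧
    ∃ p q : ℕ, ∀ r : ℕ, r.Prime → r ≠ 2 → r ^ 2 ∣ n → r = p ∨ r = q

/-- `V` is a finite nonabelian simple section of `F`: a quotient of a subgroup of `F` which is a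
finite nonabelian simple group. -/
structure SimpleSection (V : Type) [Group V] (F : Type u) [Group F] : Prop where
  finite : Finite V
  simple : IsSimpleGroup V
  nonabelian : ∃ a b : V, a * b ≠ b * a
  quotient : ∃ (H : Subgroup F) (f : H →* V), Function.Surjective f

/-- `V` has two different commuting involutions, and for each automorphism `α` of `V` different from
the identity there is an element of `V` which lies in no proper `α`-invariant subgroup of `V`. -/
structure Good (V : Type) [Group V] : Prop where
  involutions : ∃ i j : V, i * i = 1 ∧ i ≠ 1 ∧ j * j = 1 ∧ j ≠ 1 ∧ i * j = j * i ∧ i ≠ j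
  automorphisms : ∀ α : V ≃* V, (∃ t, α t ≠ t) →
    ∃ y : V, ∀ P : Subgroup V, y ∈ P → (∀ x ∈ P, α x ∈ P) → P = ⊤

theorem sec_lf {G : Type u} [Group G] (h : LocallyFinite G) (A : Subgroup G) (N : Subgroup A)
    [N.Normal] : LocallyFinite (A ⧸ N) := by
  intro S hS
  let S' : Set A := Quotient.out '' S
  have hS' : S'.Finite := hS.image _
  have h1 : Finite (Subgroup.closure (A.subtype '' S')) := h _ (hS'.image _)
  rw [← MonoidHom.map_closure] at h1
  have eq := (Subgroup.closure S').equivMapOfInjective A.subtype A.subtype_injective
  have h2 : Finite (Subgroup.closure S') := Finite.of_equiv _ eq.symm.toEquiv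
  have e : (Subgroup.closure S').map (QuotientGroup.mk' N) = Subgroup.closure S := by
    rw [MonoidHom.map_closure]
    congr 1
    ext x
    constructor
    · rintro ⟨_, ⟨y, hy, rfl⟩, rfl⟩
      have e1 : QuotientGroup.mk' N (Quotient.out y) = y := Quotient.out_eq' y
      rwa [e1]
    · intro hx
      exact ⟨Quotient.out x, ⟨x, hx, rfl⟩, Quotient.out_eq' x⟩
  rw [← e]
  exact Finite.of_surjective _ ((QuotientGroup.mk' N).subgroupMap_surjective _)

/-- (1) Let `n ≥ 1` be such that each finite nonabelian simple section of `B_{3,n}` is good. Then
`n ∈ 𝓛` if and only if `B_{3,n}` is finite and all prime powers greater than `5` dividing `n` are in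
`𝓛`. (2) Let `G` be a group of exponent dividing `n ≥ 1` whose three-generator subgroups are finite
and have only good finite nonabelian simple sections. Suppose that the orders of the three-generator
subgroups are bounded, or that `n` is admissible and the orders of their nonabelian simple sections
are bounded. Then `G` is locally finite if and only if all sections `A / N` of `G` whose exponent
divides a prime power `p ^ k > 5` dividing `n` are locally finite. (3) The alternating group of
degree `5` is good. -/
theorem result :
    (∀ n : ℕ, 1 ≤ n → (∀ (V : Type) [Group V], SimpleSection V (B 3 n) → Good V) →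
      (InL.{u} n ↔ Finite (B 3 n) ∧
        ∀ p k : ℕ, p.Prime → p ^ k ∣ n → 5 < p ^ k → InL.{u} (p ^ k))) ∧
    (∀ n c : ℕ, 1 ≤ n → ∀ (G : Type u) [Group G], (∀ x : G, x ^ n = 1) →
      (∀ x y z : G, Finite (Subgroup.closure {x, y, z}) ∧
        ∀ (V : Type) [Group V], SimpleSection V (Subgroup.closure ({x, y, z} : Set G)) →
          Good V) →
      ((∀ x y z : G, Nat.card (Subgroup.closure ({x, y, z} : Set G)) ≤ c) ∨
        (Admissible n ∧ ∀ x y z : G, ∀ (V : Type) [Group V],
          SimpleSection V (Subgroup.closure ({x, y, z} : Set G)) → Nat.card V ≤ c)) →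
      (LocallyFinite G ↔ ∀ p k : ℕ, p.Prime → p ^ k ∣ n → 5 < p ^ k →
        ∀ (A : Subgroup G) (N : Subgroup A) [N.Normal], (∀ x : A ⧸ N, x ^ p ^ k = 1) →
          LocallyFinite (A ⧸ N))) ∧
    Good (alternatingGroup (Fin 5)) := by
  refine ⟨fun n hn hV => ⟨fun h => ⟨?_, ?_⟩, fun h => ?_⟩, fun n c hn G _ hG h3 hb =>
    ⟨fun h p k _ _ _ A N _ _ => sec_lf h A N, fun h => ?_⟩, good_a5.1, good_a5.2⟩
  · exact TwoGenerators.b_finite_of_inL h 3
  · rintro p k _ ⟨d, hd⟩ _ G _ hG
    refine h G fun x => ?_
    rw [hd, pow_mul, hG, one_pow]
  · refine main_exp hn ?_ h.1 h.2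
    intro V _ h1 h2 h4 h5
    have := hV V ⟨h1, h2, h4, h5⟩
    exact ⟨this.1, this.2⟩
  · refine main_all (c := c) hn hG ?_ ?_ h
    · intro x y z
      refine ⟨(h3 x y z).1, fun V _ h1 h2 h4 h5 => ?_⟩
      have := (h3 x y z).2 V ⟨h1, h2, h4, h5⟩
      exact ⟨this.1, this.2⟩
    · rcases hb with hb | ⟨hA, hb⟩
      · exact Or.inl hb
      · exact Or.inr ⟨hA, fun x y z V _ h1 h2 h4 h5 => hb x y z V ⟨h1, h2, h4, h5⟩⟩

end Pool.Agent.Results.MP_544bd1_al.ThreeGeneratorsGeneral
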